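import Pool.Agent.N20.AE.Stm
import Pool.Agent.Y858.NV.Wdef

set_option autoImplicit false

/-!
# Defect groups of induced blocks
-/

open scoped Classical BigOperators

noncomputable section

namespace Pool.Agent.N650.AEID

open Pool.Agent.Y63.NV Pool.Agent.Y63.KR Pool.Agent.N20.AE Pool.Agent.Y858.NV

theorem isClassFun_sum {F G : Type} [Field F] [Group G] {ι : Type} (s : Finset ι)
    (a : ι → F) (g : ι → G → F) (hg : ∀ i, IsClassFun (g i)) :
    IsClassFun (∑ i ∈ s, a i • g i) := by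
  intro u x
  rw [Finset.sum_apply, Finset.sum_apply]
  refine Finset.sum_congr rfl fun i _ => ?_
  rw [Pi.smul_apply, Pi.smul_apply, hg i u x]

theorem block_zero {F G : Type} [Field F] [Group G] {B : (G → F) → F} (hB : IsBlock B) :
    B 0 = 0 := by
  have h := hB.smul 0 0 (fun _ _ => rfl)
  rw [zero_smul, zero_mul] at h
  exact h

theorem block_sum {F G : Type} [Field F] [Group G] {B : (G → F) → F} (hB : IsBlock B)
    {ι : Type} (s : Finset ι) (a : ι → F) (g : ι → G → F) (hg : ∀ i, IsClassFun (g i)) :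
    B (∑ i ∈ s, a i • g i) = ∑ i ∈ s, a i * B (g i) := by
  induction s using Finset.induction_on with
  | empty => rw [Finset.sum_empty, Finset.sum_empty, block_zero hB]
  | insert i s hi ih =>
    rw [Finset.sum_insert hi, Finset.sum_insert hi, hB.add _ _ ?_ (isClassFun_sum s a g hg), ih,
      hB.smul _ _ (hg i)]
    intro u x
    rw [Pi.smul_apply, Pi.smul_apply, hg i u x]

/-- a class function is the sum of its values at the classes times the indicators -/
theorem classFun_eq {F G : Type} [Field F] [Group G] [Finite G] [Fintype (ConjClasses G)]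
    (f : G → F) (hf : IsClassFun f) :
    f = ∑ c : ConjClasses G, f c.out • (fun y : G => if IsConj c.out y then (1 : F) else 0) := by
  funext x
  rw [Finset.sum_apply, Finset.sum_eq_single (ConjClasses.mk x)]
  · have h1 : IsConj (ConjClasses.mk x).out x := by
      rw [← ConjClasses.mk_eq_mk_iff_isConj]
      exact Quotient.out_eq (ConjClasses.mk x)
    obtain ⟨c, hc⟩ := isConj_iff.1 h1
    rw [Pi.smul_apply, if_pos h1, smul_eq_mul, mul_one]
    have h2 : f x = f (c * (ConjClasses.mk x).out * c⁻¹) := congrArg f hc.symm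
    exact h2.trans (hf c _)
  · intro c _ hc
    have h1 : ¬ IsConj c.out x := by
      intro h
      apply hc
      rw [← ConjClasses.mk_eq_mk_iff_isConj] at h
      rw [← h]
      exact (Quotient.out_eq c).symm
    rw [Pi.smul_apply, if_neg h1, smul_zero]
  · intro h
    exact absurd (Finset.mem_univ _) h

/-- if a block does not vanish at a class function, there is a class on which neither vanishes -/
theorem exists_class {F G : Type} [Field F] [Group G] [Finite G] {B : (G → F) → F}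
    (hB : IsBlock B) (f : G → F) (hf : IsClassFun f) (h : B f ≠ 0) :
    ∃ y : G, f y ≠ 0 ∧ classValue B y ≠ 0 := by
  have : Fintype (ConjClasses G) := Fintype.ofFinite _
  rw [classFun_eq f hf, block_sum hB Finset.univ (fun c : ConjClasses G => f c.out)
    (fun c y => if IsConj c.out y then (1 : F) else 0) (fun c => isClassFun_conj c.out)] at h
  obtain ⟨c, _, hc⟩ := Finset.exists_ne_zero_of_sum_ne_zero h
  exact ⟨c.out, left_ne_zero_of_mul hc, right_ne_zero_of_mul hc⟩

/-- Sylow: a `p`-subgroup of `C(x)` is conjugate to a subgroup of `D` -/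
theorem sylow_conj {p : ℕ} [Fact p.Prime] {H : Type} [Group H] [Finite H] {C D : Subgroup H}
    (hD : D ≤ C) (hp : IsPGroup p D)
    (hc : (Nat.card D).factorization p = (Nat.card C).factorization p) {S : Subgroup H}
    (hS : IsPGroup p S) (hSC : S ≤ C) : ∃ g : H, conjSub g S ≤ D := by
  have h1 : Nat.card ↥(D.subgroupOf C) = Nat.card D :=
    Nat.card_congr (Subgroup.subgroupOfEquivOfLe hD).toEquiv
  have h2 : Nat.card ↥(D.subgroupOf C) = p ^ (Nat.card C).factorization p := by
    obtain ⟨k, hk⟩ := IsPGroup.iff_card.1 hp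
    rw [h1, ← hc, hk, Nat.Prime.factorization_pow Fact.out, Finsupp.single_eq_same]
  have hS' : IsPGroup p ↥(S.subgroupOf C) :=
    hS.of_equiv (Subgroup.subgroupOfEquivOfLe hSC).symm
  obtain ⟨P, hP⟩ := hS'.exists_le_sylow
  obtain ⟨c, hc'⟩ := MulAction.exists_smul_eq ↥C P (Sylow.ofCard (D.subgroupOf C) h2)
  refine ⟨(c : H), ?_⟩
  intro z hz
  rw [mem_conjSub] at hz
  have hzC : (c : H)⁻¹ * z * c ∈ C := hSC hz
  have h3 : (⟨(c : H)⁻¹ * z * c, hzC⟩ : C) ∈ P := hP (Subgroup.mem_subgroupOf.2 hz)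
  have h4 : c * ⟨(c : H)⁻¹ * z * c, hzC⟩ * c⁻¹ ∈ c • P := by
    exact ⟨_, h3, rfl⟩
  rw [hc'] at h4
  have h5 : c * ⟨(c : H)⁻¹ * z * c, hzC⟩ * c⁻¹ ∈ D.subgroupOf C := h4
  have h6 := Subgroup.mem_subgroupOf.1 h5
  have h7 : ((c * ⟨(c : H)⁻¹ * z * c, hzC⟩ * c⁻¹ : C) : H) = z := by
    show (c : H) * ((c : H)⁻¹ * z * c) * (c : H)⁻¹ = z
    group
  rwa [h7] at h6

theorem ID (h : S_MM) : S_ID := by
  intro p _ F _ _ _ H _ _ N b B hb hB hbB Q D hQ hD
  obtain ⟨x, hx, -, hDx, hDp, hDc⟩ := hD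
  have h1 : b (fun n : N => if IsConj x (n : H) then (1 : F) else 0) ≠ 0 := by
    have h2 := hbB (fun y => if IsConj x y then (1 : F) else 0) (isClassFun_conj x)
    have h3 : B (fun y => if IsConj x y then (1 : F) else 0) ≠ 0 := hx
    rw [← h2] at h3
    exact h3
  have hcl : IsClassFun (fun n : N => if IsConj x (n : H) then (1 : F) else 0) := by
    intro g y
    exact isClassFun_conj (F := F) x (g : H) (y : H)
  obtain ⟨y, hy, hyb⟩ := exists_class hb _ hcl h1
  have hxy : IsConj x (y : H) := by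
    by_contra hcon
    exact hy (if_neg hcon)
  obtain ⟨n, hn⟩ := (h p F N b hb).2.1 Q hQ y hyb
  obtain ⟨g, hg⟩ := isConj_iff.1 hxy
  have hQp : IsPGroup p Q := by
    obtain ⟨_, _, _, _, h3, _⟩ := hQ
    exact h3
  have hS : IsPGroup p ↥(conjSub (g⁻¹ * (n : H)) (Q.map N.subtype)) :=
    (hQp.map N.subtype).map _
  have hSC : conjSub (g⁻¹ * (n : H)) (Q.map N.subtype) ≤ Subgroup.centralizer {x} := by
    intro z hz
    rw [mem_conjSub] at hz
    obtain ⟨q, hq, hqz⟩ := hz
    have hqz' : (q : H) = (g⁻¹ * (n : H))⁻¹ * z * (g⁻¹ * (n : H)) := hqz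
    have h4 : n * q * n⁻¹ ∈ Subgroup.centralizer {y} := hn (conj_mem_conjSub hq)
    have h5 := Subgroup.mem_centralizer_iff.1 h4 y rfl
    have h6 : (y : H) * ((n : H) * q * (n : H)⁻¹) = ((n : H) * q * (n : H)⁻¹) * y :=
      congrArg (fun t : N => (t : H)) h5
    rw [Subgroup.mem_centralizer_iff]
    intro t ht
    rw [Set.mem_singleton_iff.1 ht]
    have h7 : z = g⁻¹ * ((n : H) * q * (n : H)⁻¹) * g := by
      rw [hqz']
      group
    have h8 : x = g⁻¹ * (y : H) * g := by
      rw [← hg]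
      group
    rw [h7, h8]
    calc g⁻¹ * (y : H) * g * (g⁻¹ * ((n : H) * q * (n : H)⁻¹) * g)
        = g⁻¹ * ((y : H) * ((n : H) * q * (n : H)⁻¹)) * g := by group
      _ = g⁻¹ * (((n : H) * q * (n : H)⁻¹) * y) * g := by rw [h6]
      _ = g⁻¹ * ((n : H) * q * (n : H)⁻¹) * g * (g⁻¹ * (y : H) * g) := by group
  obtain ⟨u, hu⟩ := sylow_conj hDx hDp hDc hS hSC
  refine ⟨u * (g⁻¹ * (n : H)), ?_⟩
  rw [conjSub_mul]
  exact hu

end Pool.Agent.N650.AEID
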