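import Mathlib
import Pool.Agent.N604.MW.Stm

/-!
# Project MW: few tuples with almost the same power sums (S_COUNT)
-/

set_option autoImplicit false

namespace Pool.Agent.N650.MWC

open Finset Pool.Agent.N604.MW

/-- a finite set of naturals with small pairwise differences -/
lemma card_near (T : Finset ℕ) (B : ℕ) (h : ∀ x ∈ T, ∀ y ∈ T, x ≤ y + B) : T.card ≤ B + 1 := by
  rcases T.eq_empty_or_nonempty with rfl | hT
  · simp
  · have h1 : T ⊆ Finset.Icc (T.min' hT) (T.min' hT + B) := by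
      intro x hx
      rw [Finset.mem_Icc]
      exact ⟨T.min'_le x hx, h x hx _ (T.min'_mem hT)⟩
    refine (Finset.card_le_card h1).trans ?_
    rw [Nat.card_Icc]
    omega

/-- counting the leaves of a tree -/
lemma card_tree : ∀ (k : ℕ) (B : Fin k → ℕ) (S : Finset (Fin k → ℕ)),
    (∀ m ∈ S, ∀ m' ∈ S, ∀ i, (∀ j, j < i → m j = m' j) → m i ≤ m' i + B i) →
    S.card ≤ ∏ i, (B i + 1) := by
  intro k
  induction k with
  | zero =>
    intro B S _
    rw [Fin.prod_univ_zero]
    exact Finset.card_le_one.2 fun a _ b _ => Subsingleton.elim a b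
  | succ k ih =>
    intro B S hS
    rw [Fin.prod_univ_succ, mul_comm]
    refine (Finset.card_le_mul_card_image (f := fun m : Fin (k + 1) → ℕ => m 0) S
      (∏ i : Fin k, (B i.succ + 1)) ?_).trans ?_
    · intro a _
      have e : (S.filter fun m => m 0 = a).card =
          ((S.filter fun m => m 0 = a).image (fun m : Fin (k + 1) → ℕ => fun i : Fin k => m i.succ)).card := by
        rw [Finset.card_image_of_injOn]
        intro m hm m' hm' e
        have hm1 : m 0 = a := (Finset.mem_filter.1 (Finset.mem_coe.1 hm)).2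
        have hm2 : m' 0 = a := (Finset.mem_filter.1 (Finset.mem_coe.1 hm')).2
        funext i
        refine Fin.cases ?_ (fun i => ?_) i
        · rw [hm1, hm2]
        · exact congrFun e i
      rw [e]
      apply ih
      intro t ht t' ht' i hj
      obtain ⟨m, hm, rfl⟩ := Finset.mem_image.1 ht
      obtain ⟨m', hm', rfl⟩ := Finset.mem_image.1 ht'
      obtain ⟨h1, h2⟩ := Finset.mem_filter.1 hm
      obtain ⟨h1', h2'⟩ := Finset.mem_filter.1 hm'
      refine hS m h1 m' h1' i.succ ?_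
      intro j
      refine Fin.cases ?_ (fun j => ?_) j
      · intro _
        rw [h2, h2']
      · intro hj'
        exact hj j (Fin.succ_lt_succ_iff.1 hj')
    · apply Nat.mul_le_mul_left
      apply card_near
      intro x hx y hy
      obtain ⟨m, hm, rfl⟩ := Finset.mem_image.1 hx
      obtain ⟨m', hm', rfl⟩ := Finset.mem_image.1 hy
      exact hS m hm m' hm' 0 fun j hj => absurd hj (Fin.not_lt_zero j)

/-- the product of the truncated quotients -/
lemma prod_le {X : ℝ} (hX : 1 ≤ X) : ∀ (k : ℕ) (H : ℝ), 1 ≤ H →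
    ∏ i ∈ range k, min X (max 1 (H / X ^ i)) ≤ H := by
  intro k
  have hX0 : 0 < X := by linarith
  induction k with
  | zero => intro H hH; simpa using hH
  | succ k ih =>
    intro H hH
    rw [Finset.prod_range_succ']
    have e : ∀ i : ℕ, H / X ^ (i + 1) = H / X / X ^ i := by
      intro i
      rw [pow_succ', div_div]
    have hf : min X (max 1 (H / X ^ 0)) = min X H := by
      rw [pow_zero, div_one, max_eq_right hH]
    rw [hf]
    simp only [e]
    rcases le_or_gt 1 (H / X) with h1 | h1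
    · have h2 := ih (H / X) h1
      have h3 : min X H ≤ X := min_le_left _ _
      have h4 : 0 ≤ min X H := le_min hX0.le (by linarith)
      calc (∏ i ∈ range k, min X (max 1 (H / X / X ^ i))) * min X H
          ≤ H / X * X := mul_le_mul h2 h3 h4 (by linarith)
        _ = H := div_mul_cancel₀ _ hX0.ne'
    · have h2 : ∏ i ∈ range k, min X (max 1 (H / X / X ^ i)) = 1 := by
        apply Finset.prod_eq_one
        intro i _
        have h3 : H / X / X ^ i ≤ 1 := by
          rw [div_le_one (pow_pos hX0 i)]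
          exact h1.le.trans (one_le_pow₀ hX)
        rw [max_eq_left h3, min_eq_right hX]
      rw [h2, one_mul]
      exact min_le_right _ _

/-- the bound for one factor -/
lemma factor_le {X D h b : ℝ} (hX : 1 ≤ X) (hD : 0 ≤ D) (hb1 : b ≤ X) (hb2 : b ≤ D * h) :
    b + 1 ≤ (D + 2) * min X (max 1 h) := by
  have hm : 1 ≤ max 1 h := le_max_left _ _
  rcases min_choice X (max 1 h) with e | e
  · rw [e]
    nlinarith
  · rw [e]
    have h1 : D * h ≤ D * max 1 h := mul_le_mul_of_nonneg_left (le_max_right _ _) hD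
    nlinarith

/-- power sums control the coordinate after the common ones -/
lemma coord {C : ℝ} {l r : ℕ} (hC : ∀ (X H : ℝ) (u v : Fin r → ℝ), 1 ≤ X → 0 ≤ H →
      (∀ i : Fin r, 2 * ((i : ℝ) + l + 1) * X ≤ u i ∧ u i ≤ (2 * ((i : ℝ) + l + 1) + 1) * X) →
      (∀ i : Fin r, 2 * ((i : ℝ) + l + 1) * X ≤ v i ∧ v i ≤ (2 * ((i : ℝ) + l + 1) + 1) * X) →
      (∀ j ∈ Finset.Icc (l + 1) (l + r), |∑ i, (u i ^ j - v i ^ j)| ≤ H) →
      ∑ i, |u i - v i| ≤ C * H / X ^ l)
    {X : ℕ} {H : ℝ} (hX : 1 ≤ X) (hH : 0 ≤ H) {m m' : Fin (l + r) → ℕ} (hm : m ∈ Box (l + r) X)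
    (hm' : m' ∈ Box (l + r) X)
    (hs : ∀ j ∈ Finset.Icc 1 (l + r), |∑ i, ((m i : ℝ) ^ j - (m' i : ℝ) ^ j)| ≤ H)
    (he : ∀ i : Fin l, m (Fin.castAdd r i) = m' (Fin.castAdd r i)) (t : Fin r) :
    |(m (Fin.natAdd l t) : ℝ) - m' (Fin.natAdd l t)| ≤ C * H / (X : ℝ) ^ l := by
  have hb : ∀ m ∈ Box (l + r) X, ∀ i : Fin r, 2 * ((i : ℝ) + l + 1) * X ≤ (m (Fin.natAdd l i) : ℝ) ∧
      (m (Fin.natAdd l i) : ℝ) ≤ (2 * ((i : ℝ) + l + 1) + 1) * X := by
    intro m hm i
    have h1 := (Fintype.mem_piFinset.1 hm) (Fin.natAdd l i)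
    rw [Finset.mem_Icc, Fin.val_natAdd] at h1
    obtain ⟨h2, h3⟩ := h1
    have h2' : ((2 * ((l + (i : ℕ)) + 1) * X : ℕ) : ℝ) ≤ (m (Fin.natAdd l i) : ℝ) := by exact_mod_cast h2
    have h3' : (m (Fin.natAdd l i) : ℝ) ≤ (((2 * ((l + (i : ℕ)) + 1) + 1) * X : ℕ) : ℝ) := by exact_mod_cast h3
    push_cast at h2' h3'
    constructor
    · linarith
    · linarith
  have h := hC X H (fun i => (m (Fin.natAdd l i) : ℝ)) (fun i => (m' (Fin.natAdd l i) : ℝ))
    (by exact_mod_cast hX) hH (hb m hm) (hb m' hm') (by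
      intro j hj
      rw [Finset.mem_Icc] at hj
      have h1 := hs j (Finset.mem_Icc.2 ⟨by omega, hj.2⟩)
      rw [Fin.sum_univ_add] at h1
      have h2 : ∑ i : Fin l, ((m (Fin.castAdd r i) : ℝ) ^ j - (m' (Fin.castAdd r i) : ℝ) ^ j) = 0 := by
        apply Finset.sum_eq_zero
        intro i _
        rw [he i, sub_self]
      rw [h2, zero_add] at h1
      exact h1)
  exact (Finset.single_le_sum (f := fun i : Fin r => |(m (Fin.natAdd l i) : ℝ) - m' (Fin.natAdd l i)|)
    (fun i _ => abs_nonneg _) (Finset.mem_univ t)).trans h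

/-- the width of the box -/
lemma width {k X : ℕ} {m m' : Fin k → ℕ} (hm : m ∈ Box k X) (hm' : m' ∈ Box k X) (i : Fin k) :
    m i ≤ m' i + X := by
  have h1 := (Fintype.mem_piFinset.1 hm) i
  have h2 := (Fintype.mem_piFinset.1 hm') i
  rw [Finset.mem_Icc] at h1 h2
  have h3 : (2 * ((i : ℕ) + 1) + 1) * X = 2 * ((i : ℕ) + 1) * X + X := by ring
  omega

/-- **MW/COUNT** -/
theorem count (h : S_SIGN) : S_COUNT := by
  intro k _
  choose C hC0 hC using h
  obtain ⟨D, hD⟩ : ∃ D : ℝ, D = ∑ i ∈ range k, 2 * C (k - i) i i := ⟨_, rfl⟩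
  have hD0 : 0 ≤ D := by
    rw [hD]
    exact Finset.sum_nonneg fun i _ => by linarith [hC0 (k - i) i i]
  have hDi : ∀ i : Fin k, 2 * C (k - i) i i ≤ D := by
    intro i
    rw [hD]
    exact Finset.single_le_sum (f := fun i => 2 * C (k - i) i i)
      (fun i _ => by linarith [hC0 (k - i) i i]) (Finset.mem_range.2 i.2)
  refine ⟨(D + 2) ^ k, by positivity, ?_⟩
  intro X H n hX hH _ S hS
  have hX' : (1 : ℝ) ≤ X := by exact_mod_cast hX
  have hX0 : (0 : ℝ) < X := by linarith
  -- the differences of power sums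
  have hdiff : ∀ m ∈ S, ∀ m' ∈ S, ∀ j ∈ Finset.Icc 1 k,
      |∑ i, ((m i : ℝ) ^ j - (m' i : ℝ) ^ j)| ≤ 2 * H := by
    intro m hm m' hm' j hj
    have h1 := (hS m hm).2 j hj
    have h2 := (hS m' hm').2 j hj
    have e : ∑ i, ((m i : ℝ) ^ j - (m' i : ℝ) ^ j) =
        ∑ i, ((m i : ℝ) ^ j - (n i : ℝ) ^ j) - ∑ i, ((m' i : ℝ) ^ j - (n i : ℝ) ^ j) := by
      rw [← Finset.sum_sub_distrib]
      exact Finset.sum_congr rfl fun i _ => by ring
    rw [e]
    refine (abs_sub _ _).trans ?_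
    linarith
  obtain ⟨b, hb⟩ : ∃ b : ℕ → ℝ, b = fun i => min (X : ℝ) (D * (H / (X : ℝ) ^ i)) := ⟨_, rfl⟩
  have hb0 : ∀ i, 0 ≤ b i := by
    intro i
    rw [hb]
    exact le_min hX0.le (by positivity)
  have key := card_tree k (fun i => ⌊b i⌋₊) S (by
    intro m hm m' hm' i hj
    have h1 : (m i : ℝ) - m' i ≤ D * (H / (X : ℝ) ^ (i : ℕ)) := by
      obtain ⟨i, hi⟩ := i
      obtain ⟨r, rfl⟩ : ∃ r, k = i + r := ⟨k - i, by omega⟩
      have h2 := coord (C := C (i + r - i) i i) (l := i) (r := r) (by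
        have := hC (i + r - i) i i
        rw [Nat.add_sub_cancel_left] at this ⊢
        exact this) hX (H := 2 * H) (by linarith) (hS m hm).1 (hS m' hm').1 (hdiff m hm m' hm')
        (fun t => hj _ (by
          rw [Fin.lt_def]
          exact t.2)) ⟨0, by omega⟩
      have e : Fin.natAdd i (⟨0, by omega⟩ : Fin r) = ⟨i, hi⟩ := by
        ext
        simp
      rw [e] at h2
      have h3 := (le_abs_self _).trans h2
      have h4 := hDi ⟨i, hi⟩
      refine h3.trans ?_
      have h5 : C (i + r - i) i i * (2 * H) / (X : ℝ) ^ i = 2 * C (i + r - i) i i * (H / (X : ℝ) ^ i) := by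
        ring
      rw [h5]
      exact mul_le_mul_of_nonneg_right h4 (by positivity)
    have h2 : (m i : ℝ) - m' i ≤ X := by
      have := width (hS m hm).1 (hS m' hm').1 i
      have h3 : (m i : ℝ) ≤ m' i + X := by exact_mod_cast this
      linarith
    have h3 : (m i : ℝ) - m' i ≤ b i := by
      rw [hb]
      exact le_min h2 h1
    by_contra hcon
    push Not at hcon
    have h4 : m' i + (⌊b i⌋₊ + 1) ≤ m i := by omega
    have h5 : (m' i : ℝ) + ((⌊b i⌋₊ : ℝ) + 1) ≤ m i := by exact_mod_cast h4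
    have h6 := Nat.lt_floor_add_one (b i)
    linarith)
  have key' : (S.card : ℝ) ≤ ∏ i : Fin k, ((⌊b i⌋₊ : ℝ) + 1) := by
    have := (Nat.cast_le (α := ℝ)).2 key
    push_cast at this
    exact this
  refine key'.trans ?_
  have h1 : ∏ i : Fin k, ((⌊b i⌋₊ : ℝ) + 1) ≤
      ∏ i : Fin k, ((D + 2) * min (X : ℝ) (max 1 (H / (X : ℝ) ^ (i : ℕ)))) := by
    apply Finset.prod_le_prod
    · intro i _
      positivity
    · intro i _
      refine le_trans ?_ (factor_le hX' hD0 (b := b i) (by rw [hb]; exact min_le_left _ _)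
        (by rw [hb]; exact min_le_right _ _))
      linarith [Nat.floor_le (hb0 i)]
  refine h1.trans ?_
  rw [Finset.prod_mul_distrib, Finset.prod_const, Finset.card_univ, Fintype.card_fin]
  refine mul_le_mul_of_nonneg_left ?_ (by positivity)
  rw [Fin.prod_univ_eq_prod_range (fun i => min (X : ℝ) (max 1 (H / (X : ℝ) ^ i))) k]
  exact prod_le hX' k H hH

end Pool.Agent.N650.MWC
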